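import Pool.Agent.R852.BM.Ports

set_option autoImplicit false

/-! # The motivic monodromy conjecture for products of powers of forms over linear ideals

Let `L s = zeros (c s)`, `s ∈ S`, be proper linear subspaces of the affine space `ℂ ^ σ`, given as the
zeros of linear forms with the coefficients `c s j`. For `t ∈ T` let
`F_t = ∑_j y_{t,j} M_{t,j}(x)`, where the `M_{t,j}` are the products of these linear forms, `e t s`
of them from the family of index `s`, `s ∈ S` (`arrGen`; they generate the ideal
`∏ s, I(L s) ^ e t s`), and the `y_{t,j}` are further variables, separate for each `t`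
(`blockForm`). Let `f = ∏ t, F_t ^ a t` (`powProd`).

Let `𝒢` be a building set of linear subspaces (De Concini and Procesi) which contains the `L s`
which occur in `f`, for example the set of these `L s`, if it is closed under intersections. Let
`Y` be the wonderful model, which is obtained from the affine space by blowing up the strict
transforms of the members of `𝒢`, in the order of the dimension. It is smooth, the components `E_G`,
`G ∈ 𝒢`, cross normally, the multiplicity of the Jacobian determinant along `E_G` is `ν_G - 1` with
`ν_G = codim G`, and the ideal of `L s` becomes the ideal of the divisor `∑ E_G`, over the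
`G ⊆ L s`. So locally on `Y` the form `F_t` is one of the `M_{t,j}` times
`y_{t,j} + ∑_{i ≠ j} g_i y_{t,i}`; hence `Y` times the space of the `y` is an embedded resolution of
`f`, with the components `E_G`, of multiplicity `N_G = ∑ t, a t ∑ e t s`, the second sum over the
`s` with `G ⊆ L s`, and, for `a t > 0`, the strict transform of `F_t = 0`, with multiplicity `a t`
and `ν = 1` (`mulA`, `nuA`). So the motivic zeta function `Z_f^mot` of the problem, computed on this resolution, is of the form
`dlZ = ∑_J c_J ∏_{i ∈ J} u ^ (-ν_i) T ^ (N_i) / (1 - u ^ (-ν_i) T ^ (N_i))`, with `u = 𝕃`,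
`R = 𝓜 = K₀(Var)[𝕃⁻¹]`, `c_J = (𝕃 - 1) ^ (|J| - 1) [Ẽ_J°]` for `J ≠ ∅` and `c_∅ = [{f = 1}]` (Denef and
Loeser).

Since the roots of the Bernstein-Sato polynomial `b_f` give monodromy eigenvalues
`exp(2 π i q₁ / q₂)` of `f` at points of `f⁻¹(0)` (Malgrange, Kashiwara), this is the statement of Q1,
with `(a, b) = (q₁, q₂)`, and its strong form.

The theorem needs that the `G` are Rees flats (`IsReesFlat`; an equivalent condition is that `E_G` is
a Rees divisor of the product of the `I(L s)`). This is so for the `L s` themselves; hence the
theorem applies to all `f` for which the `L s` which occur are a building set, in particular if they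
are closed under intersections.

Let now `L s = H_s ⊗ ℂ ^ m`, where `H_s` is the hyperplane `α s = 0` of `ℂ ^ ι` (`copies`). Then the
`X ⊗ ℂ ^ m` (`power`), `X` an irreducible flat of the `H_s` which occur, are a building set. They are
Rees flats if `codim X ≤ m`; so the theorem applies to all arrangements of hyperplanes of rank at
most `m`. They are also Rees flats if `X` is constructible (`IsConstructible`) and `m ≥ 2`. The
irreducible flats of a supersolvable arrangement are constructible, so the theorem applies if the
`H_s` which occur are a supersolvable arrangement and `m ≥ 2`; for example, to the diagonals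
`x_i = x_j` of the configurations of `n` points in `ℂ ^ m`.

The proof: a functional equation of `f` gives a functional equation of the product of the ideals,
with the same `b`, and the `E_G` are Rees divisors of this ideal (with linear charts at general points
of the `E_G`); the roots `-1 / a t` come from the strict transforms. -/

namespace Pool.Agent.Results.MP_432c1b_ag.SubspaceProducts

open Pool.Agent.W574.HS Pool.Agent.H628R4.TP Pool.Agent.TH192.DT Pool.Agent.TH187.SA
  Pool.Agent.R852.BM

/-- **The motivic monodromy conjecture for `f = ∏ t, F_t ^ a t`.** (1) There is a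
finite set `𝒮` of pairs `q₁ < 0 < q₂` such that `q₁ / q₂` is a root of every `b` with
`IsBFunction f b`, and such that all the series `Z` of the form of the formula of Denef and
Loeser on the resolution described above, with coefficients `χ J` in a commutative ring `R` with a
unit `u` (see above), are in the ring generated over `R` by `T` and the `1 / (1 - u ^ q₁ T ^ q₂)`,
`q ∈ 𝒮`. `IsBFunction f b` says that `b(s) f ^ s = P(s) f ^ (s + 1)`, `P(s)` a differential operator with
polynomial coefficients; for example the Bernstein-Sato polynomial `b_f`.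
(2) Proper subspaces are Rees flats of every finite family which contains them. (3) Let
`L s = H_s ⊗ ℂ ^ m`, where `H_s` is the hyperplane `α s = 0`. Let `X` be an irreducible flat of the
`H_s`, `s ∈ A`, of codimension at most `m`, or let `m ≥ 2` and let `X` be constructible from the
`H_s`, `s ∈ A`. Then `X ⊗ ℂ ^ m` is a Rees flat of the `L s`, `s ∈ A`, of codimension `m codim X`. -/
theorem result :
    (∀ {σ S T I : Type} [Fintype σ] [DecidableEq σ] [Fintype S] [DecidableEq S] [Fintype T]
      [DecidableEq T] [Fintype I] {κ : S → Type} [∀ s, Fintype (κ s)] [∀ s, DecidableEq (κ s)]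
      (c : (s : S) → κ s → σ → ℂ) (_ : ∀ s, ∃ j, c s j ≠ 0) (e : T → S → ℕ) (a : T → ℕ)
      (G : I → Submodule ℂ (σ → ℂ))
      (_ : ∀ i, IsReesFlat (fun s => zeros (c s)) (Occurs e a) (G i)),
      ∃ 𝒮 : Finset (ℤ × ℤ), (∀ (R : Type) [CommRing R] (u : Rˣ)
          (χ : Finset {x // 0 < mulA (fun s => zeros (c s)) e a G x} → R),
          dlZ u (nuA G T) (mulA (fun s => zeros (c s)) e a G) χ ∈ ratU u (𝒮 : Set (ℤ × ℤ))) ∧
        ∀ q ∈ 𝒮, q.1 < 0 ∧ 0 < q.2 ∧ ∀ b : Polynomial ℂ,
          IsBFunction (powProd a fun t => arrGen c (e t)) b → b.eval ((q.1 : ℂ) / q.2) = 0) ∧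
    (∀ {σ S : Type} [Fintype σ] [DecidableEq σ] [Finite S] (H : S → Submodule ℂ (σ → ℂ))
      (A : S → Prop), (∀ s, A s → H s ≠ ⊤) → ∀ s, A s → IsReesFlat H A (H s)) ∧
    ∀ {ι S : Type} [Fintype ι] [DecidableEq ι] [Finite S] (m : ℕ) (α : S → ι → ℂ) (A : S → Prop)
      (X : Submodule ℂ (ι → ℂ)), (∀ s, A s → α s ≠ 0) →
      (IsIrreducibleFlat α A X ∧ Fintype.card ι ≤ m + Module.finrank ℂ X ∨
        IsConstructible α A X ∧ 2 ≤ m) →
      IsReesFlat (fun s => zeros (copies m (α s))) A (power m X) ∧
        Fintype.card (ι × Fin m) - Module.finrank ℂ (power m X)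
          = m * (Fintype.card ι - Module.finrank ℂ X) := by
  refine ⟨?_, ?_, ?_⟩
  · intro σ S T I _ _ _ _ _ _ _ κ _ _ c hc e a G hG
    obtain ⟨𝒮, h1, h2⟩ := sub_set c hc e a G hG
    exact ⟨𝒮, h1, fun q hq => ⟨(h2 q hq).1, (h2 q hq).2.1, fun b hb =>
      (h2 q hq).2.2 b (Or.inl hb)⟩⟩
  · intro σ S _ _ _ H A hH s hs
    exact isReesFlat_self H A hH s hs
  · intro ι S _ _ _ m α A X h0 hX
    exact ⟨isReesFlat_multiple m α A X h0 hX, codim_power m X⟩

end Pool.Agent.Results.MP_432c1b_ag.SubspaceProducts
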