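import Pool.Agent.R852.MC.Fin

set_option autoImplicit false

/-! # The motivic monodromy conjecture for products of powers of forms over ideals which are built with
# sums, products, powers and forms

Let `MG` be the least class of ideals, together with their motivic zeta functions `∫ T^(ord I) dμ`, with
the following properties:

* it contains the unit ideal, the powers `(x ^ m)`, the non-zero ideals of `ℂ[x, y]`, the ideals of
  `ℂ[x₀, x₁, x₂]` generated by forms of the same degree, three of which are algebraically independent,
  the ideals generated by forms of the same degree without a common zero outside the origin, and it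
  is closed under sums and products in disjoint sets of variables;
* if the ideal `h ∏_t (f_{t, j})_j ^ a_t` is in the class, where `h` and the `f_{t, j}` are any polynomials
  in the same variables `x`, then the principal ideal of
  `h(x) ∏_t (∑_j y_{t, j} f_{t, j}(x)) ^ a_t` is in the class, with further variables `y_{t, j}`;
* if the principal ideal `(g)` is in the class, then `(g ^ k)` is in the class.

The theorem is about `F = h ∏_t (∑_j y_{t, j} f_{t, j}(x)) ^ a_t` for the ideals
`J = h ∏_t (f_{t, j})_j ^ a_t` in the class `MG`, if the greatest common divisor of the `a_t` is `1` or `h` is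
constant. For example, `F = ∑_j y_j f_j(x)`, where `(f_j)` is a sum `(F_1(x) ^ k_1, …, F_r(x^{(r)}) ^ k_r)` of
ideals in disjoint sets of variables, where the `F_i` are products of powers of generic members of
linear systems on the plane, times a fixed polynomial, or plane curves.

The proof (`Pool/Agent/R852/MC`): the properties of an ideal `I` of the class are that every number
`-n/a` which belongs to a denominator `1 - L⁻ⁿ Tᵃ` of the series of the volumes of `ord I ≥ e` is a forced
root, that is a root which comes from all the functional equations of `I`.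
For `F = h ∏_t (∑_j y_{t, j} f_{t, j}) ^ a_t` a functional equation with `b` gives one of the ideal
`h ∏_t (f_{t, j})_j ^ a_t` with `b'`, `b(s) = b'(s) ∏_t ∏_{1 ≤ i ≤ a_t} (a_t s + i)` (`locEq_strong`); a
functional equation of `g ^ k` with `b(s)` gives one of `g` with `b(s / k)` (`isB_shift`), and
`Z_{g ^ k}(T) = Z_g(T ^ k)` (`tail_expand`).
-/

namespace Pool.Agent.Results.MP_432c1b_ag.SumsPowersForms

open MvPolynomial Pool.Agent.W574.MO Pool.Agent.H628R4.TP Pool.Agent.R852.MC Pool.Agent.R852.TP

/-- **The motivic monodromy conjecture, in the strong form, for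
`F = h(x) ∏_t (∑_j y_{t,j} f_{t,j}(x)) ^ a_t`** (`formFam a h f`), `a_t ≥ 1`, the ideal
`J = h ∏_t (f_{t, j})_j ^ a_t` (`genFam a h f`) in the class `MG` which is described above, the greatest
common divisor of the `a_t` equal to `1` or `h` constant. `M` is a commutative ring with a unit `L`, for
example `M = K₀(Var_ℂ)[1/L]`. Let `Z = Z_F^mot`; it is a constant times the motivic zeta function of `J`
times `∏_t 1 / (1 - L⁻¹ T^(a_t))` (`JetG`). Let `b(s) F ^ s = P(s) F ^ (s + 1)` with `P(s)` in the Weyl
algebra. Then `Z` lies in the ring `M[T][(1 - L⁻ⁿ Tᵃ)⁻¹]`, where the pairs `a, n ≥ 1` are such that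
`-n/a` is a root of `b` (`RootPair`); so `exp(-2 π i n/a)` is a monodromy eigenvalue of `F`
(Malgrange, Kashiwara). -/
theorem result {M : Type} [CommRing M] (L : Mˣ) {σ τ : Type} [Fintype τ] [DecidableEq τ]
    [Nonempty τ] {κ : τ → Type} [∀ t, Fintype (κ t)] (a : τ → ℕ) (ha : ∀ t, 0 < a t)
    (h : MvPolynomial σ ℂ) (f : (t : τ) → κ t → MvPolynomial σ ℂ) (Z : PowerSeries M)
    (hZ : JetG L a h f Z) (b : Polynomial ℂ) (hb : IsBFunction ((formFam a h f).f 0) b) :
    Z ∈ DenRing L (RootPair b) :=
  jetG_main a h f ha Z hZ b hb

end Pool.Agent.Results.MP_432c1b_ag.SumsPowersForms
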